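import Pool.Agent.P8H99.GO.Stm

/-! Project OD/GO, package REM. -/

set_option autoImplicit false

namespace Pool.Agent.P8H57.OD

open Finset Pool.Agent.P8H99.GO

theorem pow_low (m : ℕ) : 16 * (m + 1) ≤ 2 ^ (m + 4) := by
  have h : m + 1 ≤ 2 ^ m := Nat.lt_two_pow_self
  calc 16 * (m + 1) ≤ 16 * 2 ^ m := Nat.mul_le_mul_left _ h
    _ = 2 ^ (m + 4) := by rw [pow_add]; ring

/-- REM -/
theorem rem : S_REM := by
  intro k hk ⟨C', N', hB⟩
  refine ⟨C' + 2 + k, 2 ^ (13 + k) + 2 * N', ?_⟩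
  intro x y l hlen hpos hn hx hy
  obtain ⟨n, hndef⟩ : ∃ n, n = (x :: y :: l).sum := ⟨_, rfl⟩
  obtain ⟨n', hn'def⟩ : ∃ n', n' = (y :: l).sum := ⟨_, rfl⟩
  have hnn : n = x + n' := by rw [hndef, hn'def, List.sum_cons]
  rw [← hndef] at hn hx hy ⊢
  obtain ⟨T, hT⟩ : ∃ T, T = Nat.log 2 n := ⟨_, rfl⟩
  rw [← hT] at hx hy
  have hn13 : 2 ^ (13 + k) ≤ n := by omega
  have hn0 : n ≠ 0 := by
    have : 0 < 2 ^ (13 + k) := by positivity
    omega
  have hTn : 2 ^ T ≤ n := by rw [hT]; exact Nat.pow_log_le_self 2 hn0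
  have hnT : n < 2 ^ (T + 1) := by rw [hT]; exact Nat.lt_pow_succ_log_self (by norm_num) n
  have hT13 : 13 + k ≤ T := by
    rw [hT]
    exact Nat.le_log_of_pow_le (by norm_num) hn13
  have hbig : 12 * T + 4 + 4 * k ≤ n := by
    have h1 := pow_low (T - 4)
    rw [show T - 4 + 4 = T by omega] at h1
    omega
  have hx1 : 1 ≤ x := hpos x (by simp)
  have hlen' : (y :: l).length = k := by
    simp only [List.length_cons] at hlen ⊢
    omega
  have hpos' : ∀ z ∈ y :: l, 1 ≤ z := fun z hz => hpos z (List.mem_cons_of_mem _ hz)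
  have h2pos : 0 < 2 ^ (13 + k) := by positivity
  have hF := hB (y :: l) hlen' hpos' (by rw [← hn'def]; omega)
  rw [← hn'def] at hF
  -- real numbers
  have hnR : (1 : ℝ) ≤ n := by exact_mod_cast Nat.one_le_iff_ne_zero.2 hn0
  have hn'n : (n' : ℝ) ≤ n := by
    have : n' ≤ n := by omega
    exact_mod_cast this
  have hmult : (mult (x :: y :: l) : ℝ) = (n.choose x : ℝ) * mult (y :: l) := by
    have hm : mult (x :: y :: l) = n.choose x * mult (y :: l) := by
      rw [hnn, hn'def]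
      rfl
    rw [hm]
    push_cast
    rfl
  have hpath : path (x :: y :: l) = x * y + path (y :: l) := rfl
  have hchoose : (n.choose x : ℝ) ≤ (n : ℝ) ^ x := by
    exact_mod_cast Nat.choose_le_pow n x
  obtain ⟨e, he⟩ : ∃ e : ℝ, e = (n : ℝ) ^ 2 / 4 + (7 - ((k + 1 : ℕ) : ℝ)) / 2 * (n : ℝ) :=
    ⟨_, rfl⟩
  obtain ⟨e', he'⟩ : ∃ e' : ℝ, e' = (n' : ℝ) ^ 2 / 4 + (7 - (k : ℝ)) / 2 * (n' : ℝ) := ⟨_, rfl⟩
  rw [← he'] at hF
  rw [← he]
  have h2e' : (0 : ℝ) < (2 : ℝ) ^ e' := Real.rpow_pos_of_pos (by norm_num) _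
  have h2e : (0 : ℝ) < (2 : ℝ) ^ e := Real.rpow_pos_of_pos (by norm_num) _
  have step1 : (mult (x :: y :: l) : ℝ) * 2 ^ path (x :: y :: l) ≤
      (n : ℝ) ^ x * 2 ^ (x * y) * ((n : ℝ) ^ C' * 2 ^ e') := by
    rw [hmult, hpath, pow_add]
    calc (n.choose x : ℝ) * mult (y :: l) * (2 ^ (x * y) * 2 ^ path (y :: l)) =
          ((n.choose x : ℝ) * 2 ^ (x * y)) * ((mult (y :: l) : ℝ) * 2 ^ path (y :: l)) := by ring
      _ ≤ ((n : ℝ) ^ x * 2 ^ (x * y)) * ((n : ℝ) ^ C' * 2 ^ e') := by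
          apply mul_le_mul
          · exact mul_le_mul_of_nonneg_right hchoose (by positivity)
          · refine hF.trans ?_
            apply mul_le_mul_of_nonneg_right _ h2e'.le
            exact pow_le_pow_left₀ (Nat.cast_nonneg _) hn'n _
          · positivity
          · positivity
  refine step1.trans ?_
  have hxy : (n' : ℝ) = n - x := by
    rw [hnn]
    push_cast
    ring
  have hTR : (12 : ℝ) * T + 4 + 4 * k ≤ n := by exact_mod_cast hbig
  have hkR : (0 : ℝ) ≤ k := Nat.cast_nonneg k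
  have hTR0 : (0 : ℝ) ≤ T := Nat.cast_nonneg T
  rcases Nat.lt_or_ge x 2 with hx2 | hx2
  · have hx' : x = 1 := by omega
    subst hx'
    have hee : e' ≤ e + k := by
      rw [he, he', hxy]
      push_cast
      nlinarith
    have h3 : (2 : ℝ) ^ e' ≤ 2 ^ e * (n : ℝ) ^ k := by
      calc (2 : ℝ) ^ e' ≤ (2 : ℝ) ^ (e + k) :=
            Real.rpow_le_rpow_of_exponent_le (by norm_num) hee
        _ = 2 ^ e * (2 : ℝ) ^ k := by
            rw [Real.rpow_add (by norm_num), Real.rpow_natCast]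
        _ ≤ 2 ^ e * (n : ℝ) ^ k := by
            apply mul_le_mul_of_nonneg_left _ h2e.le
            apply pow_le_pow_left₀ (by norm_num)
            linarith [show (0:ℝ) ≤ 12 * T + 4 * k by positivity]
    have h4 : (2 : ℝ) ^ (1 * y) ≤ n := by
      rw [one_mul]
      have h5 : 2 ^ y ≤ n := (Nat.pow_le_pow_right (by norm_num) hy).trans hTn
      exact_mod_cast h5
    calc (n : ℝ) ^ 1 * 2 ^ (1 * y) * ((n : ℝ) ^ C' * 2 ^ e') ≤
          (n : ℝ) ^ 1 * n * ((n : ℝ) ^ C' * (2 ^ e * (n : ℝ) ^ k)) := by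
          apply mul_le_mul
          · exact mul_le_mul_of_nonneg_left h4 (by positivity)
          · exact mul_le_mul_of_nonneg_left h3 (by positivity)
          · positivity
          · positivity
      _ = (n : ℝ) ^ (C' + 2 + k) * 2 ^ e := by
          rw [pow_add, pow_add]
          ring
  · have hx2R : (2 : ℝ) ≤ x := by exact_mod_cast hx2
    have hxT : (x : ℝ) ≤ T := by exact_mod_cast hx
    have hyT : (y : ℝ) ≤ T := by exact_mod_cast hy
    have hexp : ((T : ℝ) + 1) * x + x * y + e' ≤ e := by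
      rw [he, he', hxy]
      push_cast
      nlinarith [mul_nonneg (sub_nonneg.2 hx2R) (show (0 : ℝ) ≤ 6 * T + 2 + 2 * k by positivity),
        mul_nonneg (show (0 : ℝ) ≤ x by linarith) (sub_nonneg.2 hyT),
        mul_nonneg (show (0 : ℝ) ≤ x by linarith) (sub_nonneg.2 hxT),
        mul_nonneg (show (0 : ℝ) ≤ (x : ℝ) - 1 by linarith) (sub_nonneg.2 hTR),
        mul_nonneg (show (0 : ℝ) ≤ x by linarith) hTR0,
        mul_nonneg (show (0 : ℝ) ≤ x by linarith) hkR]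
    have h3 : (n : ℝ) ^ x ≤ (2 : ℝ) ^ (((T : ℝ) + 1) * x) := by
      have h4 : (n : ℝ) ≤ (2 : ℝ) ^ ((T : ℝ) + 1) := by
        rw [show (T : ℝ) + 1 = ((T + 1 : ℕ) : ℝ) by push_cast; ring, Real.rpow_natCast]
        exact_mod_cast hnT.le
      calc (n : ℝ) ^ x ≤ ((2 : ℝ) ^ ((T : ℝ) + 1)) ^ x :=
            pow_le_pow_left₀ (by linarith) h4 _
        _ = (2 : ℝ) ^ (((T : ℝ) + 1) * x) := by
            rw [Real.rpow_mul (by norm_num), Real.rpow_natCast]
    have h5 : (2 : ℝ) ^ (x * y) = (2 : ℝ) ^ ((x : ℝ) * y) := by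
      rw [show (x : ℝ) * y = ((x * y : ℕ) : ℝ) by push_cast; ring, Real.rpow_natCast]
    calc (n : ℝ) ^ x * 2 ^ (x * y) * ((n : ℝ) ^ C' * 2 ^ e') ≤
          (2 : ℝ) ^ (((T : ℝ) + 1) * x) * (2 : ℝ) ^ ((x : ℝ) * y) * ((n : ℝ) ^ C' * 2 ^ e') := by
          rw [h5]
          apply mul_le_mul_of_nonneg_right
          · exact mul_le_mul_of_nonneg_right h3 (by positivity)
          · positivity
      _ = (n : ℝ) ^ C' * (2 : ℝ) ^ (((T : ℝ) + 1) * x + x * y + e') := by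
          rw [Real.rpow_add (by norm_num), Real.rpow_add (by norm_num)]
          ring
      _ ≤ (n : ℝ) ^ C' * (2 : ℝ) ^ e := by
          apply mul_le_mul_of_nonneg_left _ (by positivity)
          exact Real.rpow_le_rpow_of_exponent_le (by norm_num) hexp
      _ ≤ (n : ℝ) ^ (C' + 2 + k) * 2 ^ e := by
          apply mul_le_mul_of_nonneg_right _ h2e.le
          exact pow_le_pow_right₀ hnR (by omega)

end Pool.Agent.P8H57.OD
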